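import Pool.Agent.W348.RG.Stms
import Pool.Agent.W401.Cheb.Main

set_option autoImplicit false

/-! Project RG, part NT: small primes of degree one. -/

namespace Pool.Agent.W64.RG

open NumberField Filter Topology Finset Pool.Agent.W401.Cheb
open scoped Nat.Prime

/-- a ring homomorphism to `𝔽_p` from a Frobenius element equal to one -/
lemma exists_hom (L : Type) [Field L] [NumberField L] [IsGalois ℚ L] (p : ℕ) [hp : Fact p.Prime]
    (hT : TorAt L p) (h : xp L 1 p ≠ 0) : Nonempty (𝓞 L →+* ZMod p) := by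
  classical
  have h1 := hT.2.2 ⊥
  have h2 : Nat.card {φ : 𝓞 L →+* AlgebraicClosure (ZMod p) //
      ∃ h ∈ (⊥ : Subgroup Gal(L/ℚ)), HasFrob p φ h} = xp L 1 p := by
    unfold xp
    rw [dif_pos hp.out]
    refine Nat.card_congr (Equiv.subtypeEquivRight fun φ => ?_)
    constructor
    · rintro ⟨h, hh, h3⟩
      rw [Subgroup.mem_bot] at hh
      subst hh
      exact h3
    · intro h3
      exact ⟨1, Subgroup.mem_bot.2 rfl, h3⟩
  rw [h2] at h1
  have h3 : Nat.card (𝓞 (IntermediateField.fixedField (⊥ : Subgroup Gal(L/ℚ))) →+* ZMod p) ≠ 0 := by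
    intro h4
    rw [h4, mul_zero] at h1
    exact h h1.symm
  obtain ⟨ψ⟩ := (Nat.card_pos_iff.1 (Nat.pos_of_ne_zero h3)).1
  have h5 : ∀ x : L, x ∈ IntermediateField.fixedField (⊥ : Subgroup Gal(L/ℚ)) := by
    intro x
    rw [IntermediateField.mem_fixedField_iff]
    intro f hf
    rw [Subgroup.mem_bot] at hf
    subst hf
    rfl
  let f : L →+* (IntermediateField.fixedField (⊥ : Subgroup Gal(L/ℚ))) :=
    { toFun := fun x => ⟨x, h5 x⟩
      map_one' := rfl
      map_mul' := fun _ _ => rfl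
      map_zero' := rfl
      map_add' := fun _ _ => rfl }
  exact ⟨ψ.comp (RingOfIntegers.mapRingHom f)⟩

/-- the good primes -/
noncomputable def SS (L : Type) [Field L] [NumberField L] (D : ℕ) (N : ℕ) : Finset ℕ :=
  (pr N).filter (fun p => ¬ p ∣ D ∧ xp L 1 p ≠ 0)

lemma xp_le (L : Type) [Field L] [NumberField L] [IsGalois ℚ L] (p : ℕ) [hp : Fact p.Prime]
    (hT : TorAt L p) : xp L 1 p ≤ Nat.card Gal(L/ℚ) := by
  classical
  unfold xp
  rw [dif_pos hp.out, ← hT.1]
  have := finite_hom hT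
  exact Nat.card_le_card_of_injective (fun φ => φ.1) Subtype.val_injective

lemma card_low (L : Type) [Field L] [NumberField L] [IsGalois ℚ L] (D : ℕ) (hD : 0 < D)
    (hT : ∀ (p : ℕ) [Fact p.Prime], ¬ p ∣ D → TorAt L p) :
    ∃ g : ℝ, 0 < g ∧ ∀ᶠ N : ℕ in atTop, (Nat.primeCounting N : ℝ) ≤ g * ((SS L D N).card : ℝ) := by
  classical
  have h1 := chebotarev L 1
  set g : ℝ := (Nat.card Gal(L/ℚ) : ℝ) with hg
  have hg0 : 0 < g := by
    rw [hg]
    exact_mod_cast Nat.card_pos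
  have h2 := M_congr_tendsto (a := fun p => (xp L 1 p : ℝ))
    (b := fun p => if p ∣ D then 0 else (xp L 1 p : ℝ)) hD
    (fun p hp hpD => by simp [hpD])
  have h3 : Tendsto (fun N => M (fun p => if p ∣ D then 0 else (xp L 1 p : ℝ)) N) atTop (𝓝 1) := by
    have h1' : Tendsto (fun N => M (fun p => (xp L 1 p : ℝ)) N) atTop (𝓝 1) := h1
    have h4 := Tendsto.sub h1' h2
    rw [sub_zero] at h4
    refine h4.congr fun N => ?_
    ring
  have h4 : ∀ N, M (fun p => if p ∣ D then 0 else (xp L 1 p : ℝ)) N ≤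
      g * ((SS L D N).card : ℝ) / (Nat.primeCounting N : ℝ) := by
    intro N
    unfold M
    refine div_le_div_of_nonneg_right ?_ (Nat.cast_nonneg _)
    rw [SS, Finset.card_filter]
    push_cast
    rw [Finset.mul_sum]
    refine Finset.sum_le_sum fun p hp => ?_
    have hpp : p.Prime := (mem_pr.1 hp).2
    have : Fact p.Prime := ⟨hpp⟩
    by_cases hpD : p ∣ D
    · simp [hpD]
    · by_cases hx : xp L 1 p = 0
      · simp [hpD, hx]
      · simp only [hpD, not_false_eq_true, hx, and_self, if_true, if_false, mul_one, ne_eq]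
        rw [hg]
        exact_mod_cast xp_le L p (hT p hpD)
  have h5 : ∀ᶠ N : ℕ in atTop, (1 / 2 : ℝ) < M (fun p => if p ∣ D then 0 else (xp L 1 p : ℝ)) N :=
    h3.eventually_const_lt (by norm_num)
  refine ⟨2 * g, by positivity, ?_⟩
  filter_upwards [h5, tendsto_pc.eventually_gt_atTop 0] with N hN hN0
  have h6 := hN.le.trans (h4 N)
  rw [le_div_iff₀ hN0] at h6
  linarith

/-- the sum of the logarithms of the good primes -/
lemma sum_low (L : Type) [Field L] [NumberField L] [IsGalois ℚ L] (D : ℕ) (hD : 0 < D)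
    (hT : ∀ (p : ℕ) [Fact p.Prime], ¬ p ∣ D → TorAt L p) :
    ∃ c : ℝ, 0 < c ∧ ∃ N0 : ℕ, ∀ N : ℕ, N0 ≤ N → c * N ≤ ∑ p ∈ SS L D N, Real.log p := by
  classical
  obtain ⟨g, hg, h1⟩ := card_low L D hD hT
  refine ⟨1 / (8 * g), by positivity, ?_⟩
  have e1 : ∀ᶠ N : ℕ in atTop, Real.log ((N : ℝ) + 1) ≤ (N : ℝ) * (Real.log 2 - 1 / 2) := by
    have h2 : (fun x : ℝ => Real.log x) =o[atTop] (fun x : ℝ => x) := Real.isLittleO_log_id_atTop
    have hpos : (0 : ℝ) < (Real.log 2 - 1 / 2) / 2 := by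
      have := Real.log_two_gt_d9
      linarith
    have h3 := (h2.bound hpos)
    have h4 : Tendsto (fun N : ℕ => (N : ℝ) + 1) atTop atTop :=
      tendsto_atTop_add_const_right _ _ tendsto_natCast_atTop_atTop
    filter_upwards [h4.eventually h3, eventually_ge_atTop 1] with N hN hN1
    have hN1' : (1 : ℝ) ≤ N := by exact_mod_cast hN1
    rw [Real.norm_eq_abs, Real.norm_eq_abs, abs_of_nonneg (by linarith : (0 : ℝ) ≤ (N : ℝ) + 1)] at hN
    have h5 := (le_abs_self _).trans hN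
    nlinarith
  have e2 : ∀ᶠ N : ℕ in atTop, ((Nat.sqrt N : ℝ) + 1) * Real.log N ≤ (N : ℝ) / (4 * g) := by
    have h2 : (fun x : ℝ => Real.log x) =o[atTop] (fun x : ℝ => x ^ (1 / 2 : ℝ)) :=
      isLittleO_log_rpow_atTop (by norm_num)
    have hpos : (0 : ℝ) < 1 / (8 * g) := by positivity
    have h3 := h2.bound hpos
    filter_upwards [tendsto_natCast_atTop_atTop.eventually h3, eventually_ge_atTop 1] with N hN hN1
    have hN1' : (1 : ℝ) ≤ N := by exact_mod_cast hN1
    have h5 : Real.log N ≤ 1 / (8 * g) * (N : ℝ) ^ (1 / 2 : ℝ) := by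
      rw [Real.norm_eq_abs, Real.norm_eq_abs, abs_of_nonneg (Real.rpow_nonneg (by linarith) _)] at hN
      exact (le_abs_self _).trans hN
    have h6 : (Nat.sqrt N : ℝ) + 1 ≤ 2 * (N : ℝ) ^ (1 / 2 : ℝ) := by
      rw [← Real.sqrt_eq_rpow]
      have h7 : (Nat.sqrt N : ℝ) ≤ Real.sqrt N := Real.nat_sqrt_le_real_sqrt
      have h8 : (1 : ℝ) ≤ Real.sqrt N := by
        rw [Real.one_le_sqrt]
        exact hN1'
      linarith
    have h9 : (N : ℝ) ^ (1 / 2 : ℝ) * (N : ℝ) ^ (1 / 2 : ℝ) = N := by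
      rw [← Real.rpow_add (by linarith)]
      norm_num
    have h10 : 0 ≤ Real.log N := Real.log_nonneg hN1'
    calc ((Nat.sqrt N : ℝ) + 1) * Real.log N ≤ (2 * (N : ℝ) ^ (1 / 2 : ℝ)) *
          (1 / (8 * g) * (N : ℝ) ^ (1 / 2 : ℝ)) :=
          mul_le_mul h6 h5 h10 (by positivity)
      _ = 2 / (8 * g) * ((N : ℝ) ^ (1 / 2 : ℝ) * (N : ℝ) ^ (1 / 2 : ℝ)) := by ring
      _ = (N : ℝ) / (4 * g) := by
          rw [h9]
          field_simp
          norm_num
  obtain ⟨N0, hN0⟩ := eventually_atTop.1 (h1.and (e1.and (e2.and (eventually_ge_atTop 2))))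
  refine ⟨N0, fun N hN => ?_⟩
  obtain ⟨b1, b2, b3, b4⟩ := hN0 N hN
  have hN2 : (2 : ℝ) ≤ N := by exact_mod_cast b4
  have hlog : 0 < Real.log N := Real.log_pos (by linarith)
  have h2 := Chebyshev.pi_ge N
  have h3 : (N : ℝ) / 2 / Real.log N ≤ (Nat.primeCounting N : ℝ) := by
    refine le_trans ?_ h2
    refine div_le_div_of_nonneg_right ?_ hlog.le
    linarith
  have h4 : (N : ℝ) / 2 ≤ g * ((SS L D N).card : ℝ) * Real.log N := by
    rw [div_le_iff₀ hlog] at h3
    exact h3.trans (mul_le_mul_of_nonneg_right b1 hlog.le)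
  -- split at the square root
  set T := (SS L D N).filter (fun p => Nat.sqrt N < p) with hTdef
  have h5 : ((SS L D N).card : ℝ) ≤ (T.card : ℝ) + ((Nat.sqrt N : ℝ) + 1) := by
    have h6 : (SS L D N).card ≤ T.card + (Nat.sqrt N + 1) := by
      rw [← Finset.card_filter_add_card_filter_not (s := SS L D N) (fun p => Nat.sqrt N < p)]
      refine Nat.add_le_add_left ?_ _
      calc _ ≤ (Finset.range (Nat.sqrt N + 1)).card := by
            refine Finset.card_le_card fun p hp => ?_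
            rw [Finset.mem_filter] at hp
            rw [Finset.mem_range]
            omega
        _ = Nat.sqrt N + 1 := Finset.card_range _
    exact_mod_cast h6
  have h6 : ∀ p ∈ SS L D N, 0 ≤ Real.log p := by
    intro p hp
    have h7 : p.Prime := (mem_pr.1 (Finset.mem_filter.1 hp).1).2
    exact Real.log_nonneg (by exact_mod_cast h7.one_lt.le)
  have h7 : (T.card : ℝ) * (Real.log N / 2) ≤ ∑ p ∈ SS L D N, Real.log p := by
    have h8 : (T.card : ℝ) * (Real.log N / 2) ≤ ∑ p ∈ T, Real.log p := by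
      rw [← nsmul_eq_mul]
      refine Finset.card_nsmul_le_sum _ _ _ fun p hp => ?_
      have h9 : Nat.sqrt N < p := (Finset.mem_filter.1 hp).2
      have h10 : N < p * p := Nat.sqrt_lt.1 h9
      have h11 : Real.log N ≤ Real.log ((p : ℝ) * p) := by
        refine Real.log_le_log (by linarith) ?_
        exact_mod_cast h10.le
      have h12 : (p : ℝ) ≠ 0 := by
        have : 0 < p := by omega
        positivity
      rw [Real.log_mul h12 h12] at h11
      linarith
    refine h8.trans (Finset.sum_le_sum_of_subset_of_nonneg (Finset.filter_subset _ _) ?_)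
    intro p hp _
    exact h6 p hp
  refine le_trans ?_ h7
  have h8 : (N : ℝ) / (2 * g) ≤ ((SS L D N).card : ℝ) * Real.log N := by
    rw [div_le_iff₀ (by positivity)]
    nlinarith
  have h9 : (N : ℝ) / (2 * g) ≤ (T.card : ℝ) * Real.log N + (N : ℝ) / (4 * g) := by
    calc (N : ℝ) / (2 * g) ≤ ((SS L D N).card : ℝ) * Real.log N := h8
      _ ≤ ((T.card : ℝ) + ((Nat.sqrt N : ℝ) + 1)) * Real.log N :=
          mul_le_mul_of_nonneg_right h5 hlog.le
      _ = (T.card : ℝ) * Real.log N + ((Nat.sqrt N : ℝ) + 1) * Real.log N := by ring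
      _ ≤ _ := by linarith
  have h10 : 1 / (8 * g) * (N : ℝ) = ((N : ℝ) / (2 * g) - (N : ℝ) / (4 * g)) / 2 := by
    field_simp
    norm_num
  rw [h10]
  linarith

/-- embedding in a Galois extension -/
lemma exists_galois (K : Type) [Field K] [NumberField K] : ∃ (L : Type) (_ : Field L)
    (_ : NumberField L) (_ : IsGalois ℚ L), Nonempty (K →+* L) := by
  have _ : Algebra.IsAlgebraic ℚ (AlgebraicClosure ℚ) := AlgebraicClosure.isAlgebraic ℚ
  have _ : IsAlgClosure ℚ (AlgebraicClosure ℚ) := ⟨inferInstance, inferInstance⟩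
  have _ : Normal ℚ (AlgebraicClosure ℚ) := IsAlgClosure.normal ℚ (AlgebraicClosure ℚ)
  let f : K →ₐ[ℚ] AlgebraicClosure ℚ := IsAlgClosed.lift
  let L : IntermediateField ℚ (AlgebraicClosure ℚ) :=
    IntermediateField.normalClosure ℚ K (AlgebraicClosure ℚ)
  have h1 : Normal ℚ L := normalClosure.normal ℚ K (AlgebraicClosure ℚ)
  have h2 : FiniteDimensional ℚ L := normalClosure.is_finiteDimensional ℚ K (AlgebraicClosure ℚ)
  have h3 : NumberField L := NumberField.mk
  have h4 : IsGalois ℚ L := ⟨⟩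
  exact ⟨L, inferInstance, h3, h4,
    ⟨(f.codRestrict L.toSubalgebra fun x => f.fieldRange_le_normalClosure ⟨x, rfl⟩).toRingHom⟩⟩

theorem nt : Pool.Agent.W348.RG.S_nt := by
  classical
  intro K _ _ D hD
  obtain ⟨L, _, _, _, ⟨f⟩⟩ := exists_galois K
  obtain ⟨D1, hD1, hT1⟩ := torsor L
  have hD2 : 0 < D * D1 := Nat.mul_pos hD hD1
  have hT : ∀ (p : ℕ) [Fact p.Prime], ¬ p ∣ D * D1 → TorAt L p := by
    intro p _ hp
    exact hT1 p fun h => hp (Dvd.dvd.mul_left h D)
  obtain ⟨c, hc, N0, hN0⟩ := sum_low L (D * D1) hD2 hT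
  refine ⟨(N0 : ℝ) + 1 / c + 1, by positivity, fun α hα => ?_⟩
  set n : ℕ := (Algebra.norm ℤ α).natAbs with hn
  have hn0 : n ≠ 0 := by
    rw [hn, Int.natAbs_ne_zero]
    exact Algebra.norm_ne_zero_iff.2 hα
  have hn1 : (1 : ℝ) ≤ n := by exact_mod_cast Nat.one_le_iff_ne_zero.2 hn0
  have hlogn : 0 ≤ Real.log n := Real.log_nonneg hn1
  set N : ℕ := N0 + ⌈(1 + Real.log n) / c⌉₊ with hNdef
  have hNge : N0 ≤ N := Nat.le_add_right _ _
  have hNc : 1 + Real.log n ≤ c * N := by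
    have h1 : (1 + Real.log n) / c ≤ N := by
      refine (Nat.le_ceil _).trans ?_
      exact_mod_cast Nat.le_add_left _ _
    rw [div_le_iff₀ hc] at h1
    linarith
  have hNle : (N : ℝ) ≤ ((N0 : ℝ) + 1 / c + 1) * (1 + Real.log n) := by
    have h1 : (⌈(1 + Real.log n) / c⌉₊ : ℝ) ≤ (1 + Real.log n) / c + 1 :=
      (Nat.ceil_lt_add_one (by positivity)).le
    have h2 : (N : ℝ) = N0 + (⌈(1 + Real.log n) / c⌉₊ : ℝ) := by rw [hNdef]; push_cast; rfl
    rw [h2]
    have h3 : (N0 : ℝ) ≤ N0 * (1 + Real.log n) := by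
      have : (0 : ℝ) ≤ N0 := Nat.cast_nonneg _
      nlinarith
    have h4 : (1 + Real.log n) / c = 1 / c * (1 + Real.log n) := by ring
    have h5 : (⌈(1 + Real.log n) / c⌉₊ : ℝ) ≤ 1 / c * (1 + Real.log n) + 1 :=
      h1.trans_eq (by rw [h4])
    nlinarith
  by_contra hcon
  push Not at hcon
  -- all the good primes divide the norm
  have hdiv : ∀ p ∈ SS L (D * D1) N, p ∣ n := by
    intro p hp
    have h1 := Finset.mem_filter.1 hp
    have h2 := mem_pr.1 h1.1
    have : Fact p.Prime := ⟨h2.2⟩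
    obtain ⟨ψ⟩ := exists_hom L p (hT p h1.2.1) h1.2.2
    have h3 := hcon p h2.2 (fun h => h1.2.1 (Dvd.dvd.mul_right h D1))
      (le_trans (by exact_mod_cast h2.1) hNle) (ψ.comp (RingOfIntegers.mapRingHom f))
    set φ := ψ.comp (RingOfIntegers.mapRingHom f)
    have h4 : ((Ideal.absNorm (Ideal.span {α}) : ℕ) : 𝓞 K) ∈ Ideal.span {α} :=
      Ideal.absNorm_mem _
    rw [Ideal.mem_span_singleton] at h4
    obtain ⟨β, hβ⟩ := h4
    have h5 := congrArg φ hβ
    rw [map_natCast, map_mul, h3, zero_mul, Ideal.absNorm_span_singleton] at h5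
    exact (ZMod.natCast_eq_zero_iff _ _).1 h5
  have hprod : ∏ p ∈ SS L (D * D1) N, p ∣ n := by
    refine Finset.prod_primes_dvd n (fun p hp => ?_) hdiv
    exact (mem_pr.1 (Finset.mem_filter.1 hp).1).2.prime
  have h1 : ∑ p ∈ SS L (D * D1) N, Real.log p ≤ Real.log n := by
    have h2 : (∏ p ∈ SS L (D * D1) N, p) ≤ n := Nat.le_of_dvd (Nat.pos_of_ne_zero hn0) hprod
    have h3 : ∀ p ∈ SS L (D * D1) N, (p : ℝ) ≠ 0 := by
      intro p hp
      exact_mod_cast (mem_pr.1 (Finset.mem_filter.1 hp).1).2.ne_zero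
    rw [← Real.log_prod h3]
    refine Real.log_le_log ?_ ?_
    · refine Finset.prod_pos fun p hp => ?_
      exact_mod_cast (mem_pr.1 (Finset.mem_filter.1 hp).1).2.pos
    · have h4 : (∏ p ∈ SS L (D * D1) N, (p : ℝ)) = ((∏ p ∈ SS L (D * D1) N, p : ℕ) : ℝ) := by
        push_cast
        rfl
      rw [h4]
      exact_mod_cast h2
  have h2 := hN0 N hNge
  linarith

end Pool.Agent.W64.RG
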